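import Mathlib
import Pool.Agent.H.MP_a8acf3_co.B

namespace Pool.Agent.Results.MP_a8acf3_co.Yes
open Set MeasureTheory Pool.Agent.H.MP_a8acf3_co

/-- the island of unit length with left end point `c` -/
def island (c : ℝ) : Set ℝ := Icc c (c + 1)

/-- `Z` is a union of at most `k` intervals, each inside a single island -/
def Pieces {m : ℕ} (c : Fin m → ℝ) (k : ℕ) (Z : Set ℝ) : Prop :=
  ∃ P : Finset (Set ℝ), P.card ≤ k ∧ (∀ J ∈ P, J.OrdConnected ∧ ∃ j, J ⊆ island (c j)) ∧
    Z = ⋃ J ∈ P, J

theorem result (m n : ℕ) (hm : 1 ≤ m) (hn : 1 ≤ n) (c : Fin m → ℝ)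
    (hc : Pairwise fun j j' => Disjoint (island (c j)) (island (c j')))
    (k : Fin n → ℕ) (_hk : ∀ i, 1 ≤ k i) (v : Fin n → ℝ → ℝ)
    (hv0 : ∀ i, ∀ x ∈ ⋃ j, island (c j), 0 ≤ v i x)
    (hv : ∀ i, IntegrableOn (v i) (⋃ j, island (c j))) :
    ∃ Z : Fin n → Set ℝ, (Pairwise fun i i' => Disjoint (Z i) (Z i')) ∧ ∀ i,
      Pieces c (k i) (Z i) ∧
      min (1 / (n : ℝ)) (k i / ((m : ℝ) + n - 1)) * ∫ x in ⋃ j, island (c j), v i x
        ≤ ∫ x in Z i, v i x := by
  classical
  set C := ⋃ j, island (c j) with hC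
  have mC : MeasurableSet C := MeasurableSet.iUnion fun j => measurableSet_Icc
  have hi : ∀ i, Integrable (C.indicator (v i)) := fun i => (integrable_indicator_iff mC).2 (hv i)
  let F : Fin n → ℕ → ℝ → ℝ := fun i _ x => ∫ t in (0:ℝ)..x, C.indicator (v i) t
  have hsub : ∀ i j (x y : ℝ), F i j y - F i j x = ∫ t in x..y, C.indicator (v i) t :=
    fun i j x y => intervalIntegral.integral_interval_sub_left (hi i).intervalIntegrable
      (hi i).intervalIntegrable
  have hFc : ∀ i j, Continuous (F i j) := fun i j =>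
    intervalIntegral.continuous_primitive (fun _ _ => (hi i).intervalIntegrable) 0
  have hFm : ∀ i j, Monotone (F i j) := fun i j x y h => by
    rw [← sub_nonneg, hsub i j]
    exact intervalIntegral.integral_nonneg h fun t _ => indicator_nonneg (hv0 i) t
  let a : ℕ → ℝ := fun j => if h : j < m then c ⟨j, h⟩ else 0
  have hval : ∀ i (T : Finset ℕ) (l r : ℕ → ℝ), T ⊆ Finset.range m →
      (∀ j ∈ T, a j ≤ l j ∧ l j ≤ r j ∧ r j ≤ a j + 1) →
      ∑ j ∈ T, (F i j (r j) - F i j (l j)) = ∫ x in ⋃ j ∈ T, Ioc (l j) (r j), v i x := by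
    intro i T l r hT h
    have hs : ∀ j (hj : j ∈ T), Ioc (l j) (r j) ⊆ island (c ⟨j, Finset.mem_range.1 (hT hj)⟩) := by
      intro j hj x hx
      have := h j hj
      simp only [a, Finset.mem_range.1 (hT hj), dif_pos] at this
      exact ⟨by linarith [hx.1], by linarith [hx.2]⟩
    have hs' : ∀ j ∈ T, Ioc (l j) (r j) ⊆ C := fun j hj => (hs j hj).trans (subset_iUnion
      (fun j => island (c j)) _)
    rw [integral_biUnion_finset T (fun _ _ => measurableSet_Ioc) (fun j hj j' hj' hne =>
      (hc (fun e => hne (congrArg Fin.val e))).mono (hs j hj) (hs j' hj'))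
      (fun j hj => (hv i).mono_set (hs' j hj))]
    refine Finset.sum_congr rfl fun j hj => ?_
    rw [hsub i j, intervalIntegral.integral_of_le (h j hj).2.1, setIntegral_indicator mC,
      inter_eq_self_of_subset_left (hs' j hj)]
  have hV : ∀ i, V F (Finset.range m) a (fun j => a j + 1) i = ∫ x in C, v i x := by
    intro i
    rw [V, hC, integral_iUnion_fintype (s := fun j => island (c j)) (fun _ => measurableSet_Icc) hc
      (fun j => (hv i).mono_set (subset_iUnion (fun j => island (c j)) j)),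
      ← Fin.sum_univ_eq_sum_range (fun j => F i j (a j + 1) - F i j (a j))]
    refine Finset.sum_congr rfl fun j _ => ?_
    simp only [a, j.2, dif_pos, Fin.eta]
    rw [hsub i j, intervalIntegral.integral_of_le (by linarith), setIntegral_indicator mC,
      inter_eq_self_of_subset_left (Ioc_subset_Icc_self.trans
        (subset_iUnion (fun j => island (c j)) j)), island, integral_Icc_eq_integral_Ioc]
  have hV0 : ∀ i, 0 ≤ ∫ x in C, v i x := fun i => setIntegral_nonneg mC (hv0 i)
  have hn0 : (0 : ℝ) < n := by exact_mod_cast hn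
  have hm0 : (0 : ℝ) < m + n - 1 := by
    have : (1 : ℝ) ≤ m := by exact_mod_cast hm
    linarith
  have k1 := Nat.div_add_mod (m - 1) n
  have k2 := Nat.mod_lt (m - 1) hn
  generalize (m - 1) / n = κ at k1
  have g := claim F hFc hFm n Finset.univ κ (Finset.range m) a (fun j => a j + 1)
    (fun i => decide (k i ≤ κ + 1))
    (fun i => if k i ≤ κ + 1 then (κ + 1) * (∫ x in C, v i x) / (m + n - 1)
      else (∫ x in C, v i x) / n) (by simp) (fun j _ => by linarith)
    (fun i _ => by have := hV0 i; split_ifs <;> positivity)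
    (by rw [Finset.card_range]; omega) (by rw [Finset.card_range, mul_add]; omega)
    (fun i _ h => by
      rw [if_pos (of_decide_eq_true h), hV, Finset.card_range, div_mul_cancel₀ _ hm0.ne'])
    (fun i _ h => by
      rw [if_neg (of_decide_eq_false h), hV, mul_div_cancel₀ _ hn0.ne'])
  obtain ⟨T, l, r, g1, g2⟩ := g.sub F hFm (k' := fun i => min (k i) (κ + 2))
    (θ' := fun i => min (1 / (n : ℝ)) (k i / ((m : ℝ) + n - 1)) * ∫ x in C, v i x)
    (fun i _ => by simp only [decide_eq_true_eq]; split_ifs <;> omega)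
    (fun i _ => by
      simp only [decide_eq_true_eq]
      split_ifs with h
      · rw [min_eq_left (by omega : k i ≤ κ + 2)]
        have := mul_le_mul_of_nonneg_right (min_le_right (1 / (n : ℝ)) (k i / ((m : ℝ) + n - 1)))
          (hV0 i)
        refine (mul_le_mul_of_nonneg_left this (by positivity)).trans_eq ?_
        push_cast; ring
      · rw [min_eq_right (by omega : κ + 2 ≤ k i)]
        have := mul_le_mul_of_nonneg_right (min_le_left (1 / (n : ℝ)) (k i / ((m : ℝ) + n - 1)))
          (hV0 i)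
        refine (mul_le_mul_of_nonneg_left this (by positivity)).trans_eq ?_
        ring)
  have hs : ∀ i j (hj : j ∈ T i), Ioc (l i j) (r i j) ⊆
      island (c ⟨j, Finset.mem_range.1 ((g1 i (Finset.mem_univ _)).1 hj)⟩) := by
    intro i j hj x hx
    have := (g1 i (Finset.mem_univ _)).2.2.1 j hj
    simp only [a, Finset.mem_range.1 ((g1 i (Finset.mem_univ _)).1 hj), dif_pos] at this
    exact ⟨by linarith [hx.1], by linarith [hx.2]⟩
  refine ⟨fun i => ⋃ j ∈ T i, Ioc (l i j) (r i j), fun i i' hne => ?_, fun i => ⟨?_, ?_⟩⟩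
  · simp only [disjoint_iUnion_left, disjoint_iUnion_right]
    intro j' hj' j hj
    by_cases e : j = j'
    · subst e
      refine Set.disjoint_left.2 fun x hx hx' => ?_
      rcases g2 i (Finset.mem_univ _) i' (Finset.mem_univ _) hne j hj hj' with h | h <;>
        linarith [hx.1, hx.2, hx'.1, hx'.2]
    · exact (hc (fun e' => e (congrArg Fin.val e'))).mono (hs i j hj) (hs i' j' hj')
  · refine ⟨(T i).image fun j => Ioc (l i j) (r i j), Finset.card_image_le.trans
      ((g1 i (Finset.mem_univ _)).2.1.trans (min_le_left _ _)), fun J hJ => ?_, ?_⟩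
    · obtain ⟨j, hj, rfl⟩ := Finset.mem_image.1 hJ
      exact ⟨ordConnected_Ioc, _, hs i j hj⟩
    · simp
  · obtain ⟨b1, -, b3, b4⟩ := g1 i (Finset.mem_univ _)
    rw [← hval i (T i) (l i) (r i) b1 b3]
    exact b4

end Pool.Agent.Results.MP_a8acf3_co.Yes
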